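import Pool.Agent.LPR.Stmts

/-!
# Squad LPR, row REI: the embedding
-/

set_option autoImplicit false

open Set Topology
open scoped BigOperators

namespace Pool.Agent.LPR.H23

open Pool.Agent.LSG Pool.Agent.LPR

theorem pt_cont : Continuous pt := continuous_projIcc (h := zero_le_one)

theorem rei (h : Re1Stmt) : ReiStmt := by
  classical
  intro S _ O ρ χ a b w hP hS F hF
  obtain ⟨hFc, hF0, hF1⟩ := hF
  obtain ⟨hR1, -, hR3⟩ := h S O ρ χ a b w hP hS
  let u : ℕ × ℕ × ℕ → unitInterval → unitInterval := fun α t =>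
    pt (((t : ℝ) - a α.1 α.2.1 α.2.2) / (b α.1 α.2.1 α.2.2 - a α.1 α.2.1 α.2.2))
  let T : ℕ × ℕ × ℕ → S × unitInterval → ℝ := fun α x =>
    w α.1 α.2.1 α.2.2 (x.2 : ℝ) * (χ α.1 α.2.1 (x.1, u α x.2) *
      F ((x.1, u α x.2), ((α.2.2 : ℕ) : OnePoint ℕ)))
  have himap : ∀ x, imap a b w χ F x = ∑ᶠ α, T α x := fun x => rfl
  have huc : ∀ α, Continuous (u α) := fun α =>
    pt_cont.comp ((continuous_subtype_val.sub continuous_const).div_const _)
  have hTc : ∀ α, Continuous (T α) := by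
    intro α
    have h1 : Continuous fun x : S × unitInterval => (x.1, u α x.2) :=
      continuous_fst.prodMk ((huc α).comp continuous_snd)
    have h2 : Continuous fun x : S × unitInterval => w α.1 α.2.1 α.2.2 (x.2 : ℝ) :=
      (w α.1 α.2.1 α.2.2).continuous.comp (continuous_subtype_val.comp continuous_snd)
    have h3 : Continuous fun x : S × unitInterval => χ α.1 α.2.1 (x.1, u α x.2) :=
      (χ α.1 α.2.1).continuous.comp h1
    have h4 : Continuous fun x : S × unitInterval =>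
        F ((x.1, u α x.2), ((α.2.2 : ℕ) : OnePoint ℕ)) :=
      hFc.comp (h1.prodMk continuous_const)
    exact h2.mul (h3.mul h4)
  have hT3 : ∀ α x, T α x ≠ 0 → |(x.2 : ℝ) - u α x.2| < (1 / 2 : ℝ) ^ (α.1 + 2) ∧
      (1 / 2 : ℝ) ^ (α.1 + 2) < ρ x ∧ ρ x < 4 * (1 / 2 : ℝ) ^ α.1 ∧ α.2.1 < 2 ^ (α.1 + 4) ∧
      |T α x| ≤ |F ((x.1, u α x.2), ((α.2.2 : ℕ) : OnePoint ℕ))| := by
    intro α x hx
    have hw : w α.1 α.2.1 α.2.2 (x.2 : ℝ) ≠ 0 := left_ne_zero_of_mul hx
    have hc : χ α.1 α.2.1 (x.1, u α x.2) ≠ 0 := left_ne_zero_of_mul (right_ne_zero_of_mul hx)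
    obtain ⟨g1, g2, g3⟩ := hR3 x.1 x.2 (u α x.2) α.1 α.2.1 α.2.2 hw hc
    refine ⟨g1, g2, g3, (hP.supp _ _ _ hc).1, ?_⟩
    have w1 := hS.w01 α.1 α.2.1 α.2.2 (x.2 : ℝ)
    have c1 := hP.chi01 α.1 α.2.1 (x.1, u α x.2)
    show |w α.1 α.2.1 α.2.2 (x.2 : ℝ) * (χ α.1 α.2.1 (x.1, u α x.2) *
      F ((x.1, u α x.2), ((α.2.2 : ℕ) : OnePoint ℕ)))| ≤ _
    rw [abs_mul, abs_mul, abs_of_nonneg w1.1, abs_of_nonneg c1.1]
    have f0 := abs_nonneg (F ((x.1, u α x.2), ((α.2.2 : ℕ) : OnePoint ℕ)))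
    calc w α.1 α.2.1 α.2.2 (x.2 : ℝ) * (χ α.1 α.2.1 (x.1, u α x.2) *
          |F ((x.1, u α x.2), ((α.2.2 : ℕ) : OnePoint ℕ))|)
        ≤ 1 * (1 * |F ((x.1, u α x.2), ((α.2.2 : ℕ) : OnePoint ℕ))|) :=
          mul_le_mul w1.2 (mul_le_mul_of_nonneg_right c1.2 f0) (mul_nonneg c1.1 f0) zero_le_one
      _ = _ := by rw [one_mul, one_mul]
  have hT1 : ∀ x α β, T α x ≠ 0 → T β x ≠ 0 → α = β := by
    intro x α β hα hβ
    obtain ⟨e1, e2, e3⟩ := hR1 x.1 x.2 (u α x.2) (u β x.2) α.1 α.2.1 α.2.2 β.1 β.2.1 β.2.2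
      (left_ne_zero_of_mul hα) (left_ne_zero_of_mul (right_ne_zero_of_mul hα))
      (left_ne_zero_of_mul hβ) (left_ne_zero_of_mul (right_ne_zero_of_mul hβ))
    exact Prod.ext e1 (Prod.ext e2 e3)
  have hoff : ∀ x, x ∉ O → ∀ α, T α x = 0 := by
    intro x hx α
    by_contra hne
    obtain ⟨-, g2, -⟩ := hT3 α x hne
    have h0 : ρ x = 0 := by
      by_contra h1
      exact hx ((hP.zero x).1 h1)
    rw [h0] at g2
    exact absurd g2 (not_lt.2 (by positivity))
  have hUC : ∀ x₀ : S × unitInterval, ∀ ε : ℝ, 0 < ε → ∃ Fs : Finset (ℕ × ℕ × ℕ),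
      ∀ᶠ x in 𝓝 x₀, ∀ α, α ∉ Fs → |T α x| < ε := by
    intro x₀ ε hε
    by_cases hx : x₀ ∈ O
    · have hr : 0 < ρ x₀ := lt_of_le_of_ne (hP.nonneg x₀) (Ne.symm ((hP.zero x₀).2 hx))
      obtain ⟨M, hM⟩ := exists_pow_lt_of_lt_one (show (0 : ℝ) < ρ x₀ / 8 by positivity)
        (show (1 / 2 : ℝ) < 1 by norm_num)
      -- tube lemma
      have h1 : ∀ᶠ z : S × OnePoint ℕ in 𝓝 (x₀.1, OnePoint.infty),
          ∀ v ∈ (Set.univ : Set unitInterval), |F ((z.1, v), z.2)| < ε := by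
        refine isCompact_univ.eventually_forall_of_forall_eventually (fun v _ => ?_)
        have hc : Continuous fun y : (S × OnePoint ℕ) × unitInterval =>
            |F ((y.1.1, y.2), y.1.2)| :=
          continuous_abs.comp (hFc.comp (((continuous_fst.comp continuous_fst).prodMk
            continuous_snd).prodMk (continuous_snd.comp continuous_fst)))
        have h0 : |F ((x₀.1, v), OnePoint.infty)| < ε := by
          rw [hF1, abs_zero]
          exact hε
        exact hc.continuousAt.eventually (gt_mem_nhds h0)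
      obtain ⟨A, hA, B, hB, hAB⟩ := mem_nhds_prod_iff.1 h1
      have h2 : ∃ n₀ : ℕ, ∀ n : ℕ, n₀ ≤ n → ((n : ℕ) : OnePoint ℕ) ∈ B := by
        have h3 : Filter.Tendsto (fun n : ℕ => ((n : ℕ) : OnePoint ℕ)) Filter.atTop
            (𝓝 OnePoint.infty) := by
          have h4 := OnePoint.tendsto_coe_infty (X := ℕ)
          rwa [Filter.coclosedCompact_eq_cocompact, Filter.cocompact_eq_cofinite,
            Nat.cofinite_eq_atTop] at h4
        obtain ⟨n₀, hn₀⟩ := Filter.eventually_atTop.1 (h3.eventually_mem hB)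
        exact ⟨n₀, hn₀⟩
      obtain ⟨n₀, hn₀⟩ := h2
      refine ⟨Finset.range M ×ˢ (Finset.range (2 ^ (M + 4)) ×ˢ Finset.range n₀), ?_⟩
      have e1 : ∀ᶠ x in 𝓝 x₀, x.1 ∈ A := continuous_fst.continuousAt.eventually hA
      have e2 : ∀ᶠ x in 𝓝 x₀, ρ x₀ / 2 < ρ x :=
        ρ.continuous.continuousAt.eventually (lt_mem_nhds (by linarith))
      filter_upwards [e1, e2] with x hx1 hx2
      intro α hα
      by_cases hz : T α x = 0
      · rw [hz, abs_zero]
        exact hε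
      · obtain ⟨-, -, g3, g4, g5⟩ := hT3 α x hz
        have hm : α.1 < M := by
          by_contra hcon
          have h5 : (1 / 2 : ℝ) ^ α.1 ≤ (1 / 2 : ℝ) ^ M :=
            pow_le_pow_of_le_one (by norm_num) (by norm_num) (not_lt.1 hcon)
          linarith
        have hk : α.2.1 < 2 ^ (M + 4) :=
          lt_of_lt_of_le g4 (Nat.pow_le_pow_right (by norm_num) (by omega))
        have hn : n₀ ≤ α.2.2 := by
          by_contra hcon
          apply hα
          rw [Finset.mem_product, Finset.mem_product, Finset.mem_range, Finset.mem_range,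
            Finset.mem_range]
          exact ⟨hm, hk, not_le.1 hcon⟩
        have h6 : (x.1, ((α.2.2 : ℕ) : OnePoint ℕ)) ∈ A ×ˢ B := ⟨hx1, hn₀ _ hn⟩
        exact lt_of_le_of_lt g5 (hAB h6 (u α x.2) (Set.mem_univ _))
    · refine ⟨∅, ?_⟩
      have hρ0 : ρ x₀ = 0 := by
        by_contra hne
        exact hx ((hP.zero x₀).1 hne)
      have h1 : ∀ᶠ y in 𝓝 x₀, ∀ n ∈ (Set.univ : Set (OnePoint ℕ)), |F (y, n)| < ε := by
        refine isCompact_univ.eventually_forall_of_forall_eventually (fun n _ => ?_)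
        have hc : Continuous fun y : (S × unitInterval) × OnePoint ℕ => |F (y.1, y.2)| :=
          continuous_abs.comp hFc
        have h0 : |F (x₀, n)| < ε := by
          rw [hF0 x₀ hx n, abs_zero]
          exact hε
        exact hc.continuousAt.eventually (gt_mem_nhds h0)
      obtain ⟨A, hA, B, hB, hAB⟩ := mem_nhds_prod_iff.1 h1
      obtain ⟨δ, hδ, hδB⟩ := Metric.mem_nhds_iff.1 hB
      have e1 : ∀ᶠ x in 𝓝 x₀, x.1 ∈ A := continuous_fst.continuousAt.eventually hA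
      have e2 : ∀ᶠ x in 𝓝 x₀, ρ x < δ / 2 :=
        ρ.continuous.continuousAt.eventually (gt_mem_nhds (by rw [hρ0]; positivity))
      have e3 : ∀ᶠ x in 𝓝 x₀, dist x.2 x₀.2 < δ / 2 :=
        (continuous_snd.continuousAt (x := x₀)).eventually (Metric.ball_mem_nhds _ (by positivity))
      filter_upwards [e1, e2, e3] with x hx1 hx2 hx3
      intro α _
      by_cases hz : T α x = 0
      · rw [hz, abs_zero]
        exact hε
      · obtain ⟨g1, g2, -, -, g5⟩ := hT3 α x hz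
        have h6 : dist (u α x.2) x₀.2 < δ := by
          have h7 : dist (u α x.2) x.2 < δ / 2 := by
            rw [Subtype.dist_eq, Real.dist_eq, abs_sub_comm]
            linarith
          have h8 := dist_triangle (u α x.2) x.2 x₀.2
          linarith
        have h9 : (x.1, u α x.2) ∈ A ×ˢ B := ⟨hx1, hδB h6⟩
        exact lt_of_le_of_lt g5 (hAB h9 _ (Set.mem_univ _))
  have happ : ∀ (x : S × unitInterval) (Fs : Finset (ℕ × ℕ × ℕ)) (ε : ℝ), 0 < ε →
      (∀ α, α ∉ Fs → |T α x| < ε) → |imap a b w χ F x - ∑ α ∈ Fs, T α x| < ε := by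
    intro x Fs ε hε hx
    rw [himap]
    by_cases hsub : ∀ α, T α x ≠ 0 → α ∈ Fs
    · rw [finsum_eq_sum_of_support_subset _ (s := Fs) (fun α hα => hsub α hα), sub_self, abs_zero]
      exact hε
    · push Not at hsub
      obtain ⟨β, hβ, hβF⟩ := hsub
      have h1 : ∑ᶠ α, T α x = T β x := finsum_eq_single _ β (fun α hα => by
        by_contra hne
        exact hα (hT1 x α β hne hβ))
      have h2 : ∑ α ∈ Fs, T α x = 0 := Finset.sum_eq_zero (fun α hα => by
        by_contra hne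
        exact hβF (hT1 x α β hne hβ ▸ hα))
      rw [h1, h2, sub_zero]
      exact hx β hβF
  refine ⟨?_, ?_⟩
  · refine continuous_iff_continuousAt.2 fun x₀ => Metric.tendsto_nhds.2 fun ε hε => ?_
    obtain ⟨Fs, hFs⟩ := hUC x₀ (ε / 3) (by positivity)
    have hg : Continuous fun x => ∑ α ∈ Fs, T α x := continuous_finsetSum _ fun α _ => hTc α
    have hg' := Metric.tendsto_nhds.1 (hg.continuousAt (x := x₀)) (ε / 3) (by positivity)
    have h3 := happ x₀ Fs (ε / 3) (by positivity) hFs.self_of_nhds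
    filter_upwards [hFs, hg'] with x h1 h2
    have h4 := happ x Fs (ε / 3) (by positivity) h1
    rw [Real.dist_eq] at h2 ⊢
    rw [abs_lt] at h2 h3 h4 ⊢
    constructor <;> linarith [h2.1, h2.2, h3.1, h3.2, h4.1, h4.2]
  · intro x hx
    show imap a b w χ F x = 0
    rw [himap]
    have h1 : ∀ α, T α x = 0 := hoff x hx
    rw [finsum_congr h1, finsum_zero]

end Pool.Agent.LPR.H23
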